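import Mathlib
import Pool.Agent.TH676.CK.Defs
import Pool.Agent.TH676.CK.Bridge
import Pool.Agent.TH676.CK.Exist

/-!
# MP_c8d0e7_lc, Q1: the answer is no

For all optimal machines, `K(C(n) | n, K(n))` is unbounded.

The definitions (`OptPlain`, `OptPFree`, `OptCondPFree`, `cx`, `ccx`) are in
`Pool/Agent/TH676/CK/Defs.lean`.

Idea of the proof (`Game.lean`, `Win.lean`, `Core.lean`).  Suppose `K(C(x) | x, K(x)) ≤ m` for all
`x`, so that `C(x)` is always among at most `D = 2^(m+1)` values which are enumerated from `x` and
`K(x)`.  In a block of `2^i` fresh strings we allow prefix complexity `i + κ - s` (stage `s`), and
plain complexity `v_0`, wait until everything has settled (at the current approximations `C` is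
among the `D` values for the current `K`), then lower the plain level of the block to
`v_1 = v_0 - J`, wait again, and so on.  If in some round a fraction `2^(-e)` of the block had its
plain complexity already below the next level, then the block is abandoned; the next stage uses a
fresh block and doubles the weight of the prefix requests.  Each abandoned block uses up many short
plain programs, so that there are few abandoned blocks, and the plain requests of each level fit
into the counting bound.  A block that is not abandoned passes `D r + 1` rounds; each surviving
string has seen that many different pairs of values of `K` and `C`, at most `D` with the same `K`,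
so that its prefix complexity has fallen by at least `r`.  Thus the universal machine has spent on
the survivors much more weight than all the stages of this subgame cost us (a geometric sum,
because of the doubling), and repeating this contradicts Kraft's inequality.
-/

set_option autoImplicit false

open Pool.Agent.TH676.CK

/-- **`K(C(n) | n, K(n))` is unbounded.**  For every computable identification `str` of the natural
numbers with the binary strings, every computable coding `pair` of pairs of strings, all optimal
machines `U` (plain), `V` (prefix-free), `W` (conditional prefix-free) and every `c` there is `n`
with `K(C(n) | n, K(n)) > c`.  Such optimal machines exist. -/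
theorem Pool.Agent.Results.MP_c8d0e7_lc.Unbounded.result :
    ((∃ U : List Bool →. List Bool, OptPlain U) ∧
      (∃ V : List Bool →. List Bool, OptPFree V) ∧
      ∃ W : List Bool → List Bool →. List Bool, OptCondPFree W) ∧
    ∀ str : ℕ ≃ List Bool, Computable str →
      ∀ pair : List Bool → List Bool → List Bool, Computable₂ pair →
        ∀ (U V : List Bool →. List Bool) (W : List Bool → List Bool →. List Bool),
          OptPlain U → OptPFree V → OptCondPFree W →
            ∀ c : ℕ, ∃ n : ℕ,
              c < ccx W (str (cx U (str n))) (pair (str n) (str (cx V (str n)))) :=
  ⟨⟨exists_optPlain, exists_optPFree, exists_optCondPFree⟩,
    fun str hs pair hp U V W hU hV hW c => unbounded str hs pair hp U V W hU hV hW c⟩
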